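import Mathlib
import Pool.Agent.H158.FAFinal

/-!
# Fermi-Amaldi TFW: `E(z+1) > E(z)` for `z = 1` (MP_8f8f86_mp, Q1)

Definitions (in `Pool.Agent.H158.FADefs` and `Pool.Agent.H158.TWBase`):

* `E3` is `ℝ³`; `WeakGrad u g`: `∫ u ∂_v φ = -∫ ⟨g, v⟩ φ` for all test functions `φ`, all `v`;
* `Dens ρ g`: `ρ ≥ 0`, `ρ ∈ L¹ ∩ L^{5/3}`, and `g ∈ L²` is the weak gradient of `√ρ`;
* `energy z N ρ g = A ∫ |g|² + (3/5) γ ∫ ρ^{5/3} - ∫ (z/|x|) ρ + (1 - 1/N) (1/2) ∬ ρ(x)ρ(y)/|x-y|`
  with `A = 0.1859`, `γ = (3π²)^{2/3}`;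
* `energies z N` is the set of these energies over the densities with `∫ ρ = N`, and
  `E z N = sInf (energies z N)` is the ground state energy.

The theorem: for some `z ≥ 1` (in the proof `z = 1`) both sets of energies are nonempty and bounded
below and `E(z) < E(z + 1)`; so `E(z + 1) < E(z)` fails.
-/

set_option autoImplicit false

namespace Pool.Agent.Results.MP_8f8f86_mp.ExtraElectronNotBound

open Pool.Agent.H158.FA

/-- **There is an integer `z ≥ 1` with `E(z) < E(z + 1)` in Fermi-Amaldi TFW theory.** -/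
theorem result : ∃ z : ℕ, 1 ≤ z ∧
    (energies z z).Nonempty ∧ BddBelow (energies z z) ∧
    (energies z (z + 1)).Nonempty ∧ BddBelow (energies z (z + 1)) ∧
    E z z < E z (z + 1) :=
  ⟨1, le_rfl, main⟩

end Pool.Agent.Results.MP_8f8f86_mp.ExtraElectronNotBound
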